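import Pool.Agent.Helper6_Mono.Main

/-!
# The equivariant motivic monodromy conjecture for polynomials built from blocks

`k` is a field with an embedding in `ℂ` and `f` is a polynomial over `k` in a finite set of
variables `σ`, so `X = 𝔸^σ`. A block is a weighted homogeneous polynomial with no critical point
outside the origin of the space of its variables. `Built s f` says that `f` is built from blocks by
multiplication with nonzero constants, positive powers, products and sums, where the factors or
summands use disjoint sets of variables.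

`MM f` is the Grothendieck ring `ℳ^μ_{X_s}` of varieties over `X_s = {f = 0}` with good action of
the profinite group scheme `μ` of roots of unity, localized at `𝕃`, and `Zf f` is the equivariant
motivic zeta function of Denef and Loeser. `bfun` is the Bernstein-Sato polynomial.
-/

set_option autoImplicit false

namespace Pool.Agent.Results.MP_b48657_ag.BlockMonodromy

open Pool.Agent.Helper6_Mono

/-- For every polynomial `f` built from blocks there is a finite set `S` of pairs `(a, b)` of
integers with `a < 0 < b` and `b_f(a / b) = 0` such that `Z_f(T)` lies in the algebra generated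
over `ℳ^μ_{X_s}` by `T` and the elements `1 / (1 - 𝕃^a T^b)`, `(a, b) ∈ S`. -/
theorem result {k : Type} [Field k] [Algebra k ℂ] {σ : Type} [Finite σ] {s : Set σ}
    {f : MvPolynomial σ k} (hf : Built s f) :
    ∃ S : Finset (ℤ × ℕ),
      (∀ p ∈ S, p.1 < 0 ∧ 0 < p.2 ∧
        (bfun (MvPolynomial.map (algebraMap k ℂ) f)).eval ((p.1 : ℂ) / (p.2 : ℂ)) = 0) ∧
      Zf f ∈ zetaRing f S := by
  have : CharZero k := (RingHom.charZero_iff (algebraMap k ℂ).injective).2 inferInstance
  obtain ⟨S, hS⟩ := hf.exists_RO
  obtain ⟨P, hP, hZ⟩ := hS.zeta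
  refine ⟨P, fun p hp => ?_, hZ⟩
  obtain ⟨h1, h2, h3⟩ := hP p hp
  refine ⟨h1, h2, ?_⟩
  have h4 := (hS.map (algebraMap k ℂ)).root _ h3
  have h5 : (-(((-((p.1 : ℚ) / (p.2 : ℚ)) : ℚ) : ℚ) : ℂ)) = (p.1 : ℂ) / (p.2 : ℂ) := by
    push_cast
    ring
  rw [h5] at h4
  exact h4

end Pool.Agent.Results.MP_b48657_ag.BlockMonodromy
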