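import Pool.Agent.Helper78_NDM.All

/-!
# The equivariant motivic monodromy conjecture for hyperplane arrangements

`k` is a field with an embedding in `ℂ`, and `f = c ∏ a_i ^ m_i` is a product of powers of
polynomials `a_i` of degree one in a finite set `σ` of variables: the hypersurface `f = 0` in
`X = 𝔸^σ` is an arbitrary hyperplane arrangement with arbitrary multiplicities. (The `a_i` need not
be distinct.)

`MM f` is the Grothendieck ring `ℳ^μ_{X_s}` of varieties over `X_s = {f = 0}` with good action of
the profinite group scheme `μ` of roots of unity, localized at `𝕃`, and `Zf f` is the equivariant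
motivic zeta function of Denef and Loeser. `bfun` is the Bernstein-Sato polynomial.
-/

set_option autoImplicit false

namespace Pool.Agent.Results.MP_b48657_ag.HyperplaneArrangements

open MvPolynomial Pool.Agent.Helper6_Mono

/-- The vector of the coefficients of the variables in the polynomial `a`. -/
noncomputable def linearPart {k σ : Type} [Field k] (a : MvPolynomial σ k) : σ → k :=
  fun l => coeff (Finsupp.single l 1) a

/-- The span of the linear parts of the `a i`, `i ∈ F`. -/
noncomputable def spanOf {k σ ι : Type} [Field k] (a : ι → MvPolynomial σ k) (F : Finset ι) :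
    Submodule k (σ → k) :=
  Submodule.span k ((fun i => linearPart (a i)) '' (F : Set ι))

/-- The set `F` is not empty and has no partition into two nonempty parts whose spans are
independent. -/
def Connected {k σ ι : Type} [Field k] (a : ι → MvPolynomial σ k) (F : Finset ι) : Prop :=
  F.Nonempty ∧ ∀ A B : Finset ι, A.Nonempty → B.Nonempty → Disjoint A B →
    (∀ i, i ∈ F ↔ i ∈ A ∨ i ∈ B) → ¬ Disjoint (spanOf a A) (spanOf a B)

/-- The rational number `q` is a slope if `q = - n / d`, where `F` is the set of the indices `i` with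
`a_i(z) = 0`, for a complex point `z`, `F` is connected, `n` is the dimension of the span of the
linear parts of the `a_i`, `i ∈ F`, and `d` is the sum of the multiplicities `m_i`, `i ∈ F`. -/
def IsSlope {k : Type} [Field k] [Algebra k ℂ] {σ ι : Type} (a : ι → MvPolynomial σ k)
    (m : ι → ℕ) (q : ℚ) : Prop :=
  ∃ (z : σ → ℂ) (F : Finset ι), (∀ i, aeval z (a i) = 0 ↔ i ∈ F) ∧ Connected a F ∧
    q = -(Module.finrank k (spanOf a F) : ℚ) / ((∑ i ∈ F, m i : ℕ) : ℚ)

/-- Let `f = c ∏ a_i ^ m_i` with polynomials `a_i` of degree one and exponents `m_i > 0`. There is a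
finite set `S` of pairs `(a, b)` of integers with `a < 0 < b`, such that all the numbers `a / b` are
slopes, all slopes are roots of `b_f` (the `n/d` conjecture of Budur, Mustata and Teitler), and
`Z_f(T)` lies in the algebra generated over `ℳ^μ_{X_s}` by `T` and the elements
`1 / (1 - 𝕃^a T^b)`, `(a, b) ∈ S`. -/
theorem result {k : Type} [Field k] [Algebra k ℂ] {σ ι : Type} [Finite σ] [Fintype ι]
    [Nonempty ι] (a : ι → MvPolynomial σ k) (ha : ∀ i, (a i).totalDegree = 1)
    (m : ι → ℕ) (hm : ∀ i, 0 < m i) (c : k) (hc : c ≠ 0) :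
    ∃ S : Finset (ℤ × ℕ),
      (∀ p ∈ S, p.1 < 0 ∧ 0 < p.2 ∧ IsSlope a m ((p.1 : ℚ) / (p.2 : ℚ))) ∧
      (∀ q : ℚ, IsSlope a m q →
        (bfun (MvPolynomial.map (algebraMap k ℂ) (C c * ∏ i, a i ^ m i))).eval (q : ℂ) = 0) ∧
      Zf (C c * ∏ i, a i ^ m i) ∈ zetaRing (C c * ∏ i, a i ^ m i) S := by
  have : Fintype σ := Fintype.ofFinite σ
  obtain ⟨S, hS, hZ⟩ := NDM.mainSlopes k σ ι a ha m hm c hc
  refine ⟨S, fun p hp => ?_, ?_, hZ⟩
  · obtain ⟨h1, h2, z, W, h3, h4, h5, h6⟩ := hS p hp
    exact ⟨h1, h2, z, W, h3, ⟨h4, h5⟩, h6⟩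
  · rintro q ⟨z, F, hz, hF, rfl⟩
    have h := NDM.rtsStmt k σ ι a ha m hm c hc z F F hz hF.1
      ⟨Finset.Subset.refl F, fun i hi _ => hi⟩ hF.2
    push_cast
    push_cast at h
    exact h

end Pool.Agent.Results.MP_b48657_ag.HyperplaneArrangements
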