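import Pool.Agent.Helper91_ISO.All
import Pool.Agent.Helper56_ISO.Fin
import Pool.Agent.Helper56_ISO.Ord

/-!
# The equivariant motivic monodromy conjecture for locally nondegenerate hypersurfaces

`k` is a field with an embedding in `ℂ`, `f` is a non-constant polynomial over `k` in a finite set
`σ` of variables (so `X = 𝔸^σ`), and `F = stab f r` is the polynomial `f + u_1 v_1 + ... + u_r v_r`
in the variables `SV σ r` (the old variables and the new variables `u_j`, `v_j`); `F = f` if
`r = 0`. `Mon f` is the conclusion of the strong equivariant motivic monodromy conjecture for `f`.

Let `F = c ∏ g_i ^ (a_i)`, and let `T` be a finite set of `k`-points.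

* `SncOut g T`: at every complex point `z` outside `T` the family `(g_i)` has simple normal
  crossings: the gradients at `z` of the `g_i` which vanish at `z` are linearly independent.
* `NdAt g p`: there are formal coordinates at `p` (power series over `k`) in which the family of the
  `g_i` with `g_i(p) = 0` is Newton nondegenerate: for every positive integral weight vector `w` the
  initial forms of the `g_i` have simple normal crossings at all points of the torus. Only the
  compact faces of the Newton polyhedra occur, they need not be convenient. The coordinates may
  depend on `p`.

The case `r = 0` contains all `f = c ∏ f_i ^ (a_i)` with simple normal crossings outside finitely many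
points which are nondegenerate in suitable formal coordinates there, with arbitrary multiplicities,
for instance all ordinary multiple points (`Pool.Agent.ISO.H56.ordNd`) and all isolated singularities
which are nondegenerate in some coordinates. If `r > 0` then `F` is irreducible, so the family is one
polynomial up to a constant; this case contains isolated singularities which are degenerate in all
coordinates: if at a point `f = h(x, q(x))`, then `F = f + u v` is
`h(x, u') + v' (u' - q(x))` in the formal coordinates `u' = u + q(x)`,
`v' = v - (h(x, u + q(x)) - h(x, q(x))) / u`.
-/

set_option autoImplicit false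

namespace Pool.Agent.Results.MP_b48657_ag.LocallyNondegenerate

open MvPolynomial Pool.Agent.Helper8_CR Pool.Agent.ISO

/-- Let `f + u_1 v_1 + ... + u_r v_r = c ∏ g_i ^ (a_i)` (at least two variables) have simple normal
crossings outside the finite set `T` of `k`-points, and let the family `(g_i)` be nondegenerate in
formal coordinates at every point of `T`. Then the conclusion of the conjecture holds for `f`: there
is a finite set `S` of pairs of integers `(a, b)` with `b > 0` and `b_f(a / b) = 0` such that `Z_f(T)`
lies in the algebra generated over `ℳ^μ_{X_s}` by `T` and the elements `1 / (1 - 𝕃^a T^b)`,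
`(a, b) ∈ S`. -/
theorem result {k : Type} [Field k] [Algebra k ℂ] {σ ι : Type} [Fintype σ] [Fintype ι]
    (f : MvPolynomial σ k) (hf : ∀ c : k, f ≠ C c) (r : ℕ) (hn : 2 ≤ Fintype.card (SV σ r))
    (g : ι → MvPolynomial (SV σ r) k) (hg : ∀ i, ∀ c : k, g i ≠ C c) (a : ι → ℕ)
    (ha : ∀ i, 0 < a i) (c : k) (hc : c ≠ 0) (hF : stab f r = C c * ∏ i, g i ^ a i)
    (T : Finset (SV σ r → k)) (hA : SncOut g T) (hN : ∀ p ∈ T, NdAt g p) : Mon f :=
  Pool.Agent.ISO.H56.stableU Pool.Agent.ISO.H91.thmU f hf r hn g hg a ha c hc hF T hA hN

end Pool.Agent.Results.MP_b48657_ag.LocallyNondegenerate
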