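import Pool.Agent.Helper58_NDF.Final
import Pool.Agent.Helper58_NDF.Simp
import Pool.Agent.Helper58_NDR.All

/-!
# The equivariant motivic monodromy conjecture for all nondegenerate polynomials

`k` is a field with an embedding in `ℂ`, `f` is a polynomial over `k` in a finite set `σ` of
variables (so `X = 𝔸^σ`), and `stab f r` is the polynomial `f + u_1 v_1 + ... + u_r v_r` in the
variables `SV σ r` (the old variables and the new variables `u_j`, `v_j`). `Mon f` is the conclusion
of the strong equivariant motivic monodromy conjecture for `f`.

`Nondegenerate G`: for every integral weight vector `w ≥ 0` the initial form of `G` (sum of the terms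
of least weight) is smooth in the torus, and if all terms of `G` have positive weight then also all
initial forms of this initial form. This holds if all initial forms of `G` are smooth in the torus
(`nondeg_of_all`), if `G` is convenient and the initial forms for `w ≥ 0` are smooth in the torus
(`nondeg_of_conv`), for simplicial nondegenerate polynomials (`nondeg_of_simplicial`), and for all
polynomials with general coefficients and arbitrary support (second part of the theorem).

The case `σ = τ`, `r = 0`, `f = G` is the conjecture for all nondegenerate polynomials, no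
condition on the Newton polyhedron and special coefficients included. The general form contains
many degenerate `f`: if `z_j = g_j(x, z_1, ..., z_(j-1))` and `f = h(x, z_1, ..., z_r)`, then
`f + u_1 v_1 + ... + u_r v_r` is isomorphic to
`h(x, u) + v_1 (u_1 - g_1(x, u)) + ... + v_r (u_r - g_r(x, u))`.
-/

set_option autoImplicit false

namespace Pool.Agent.Results.MP_b48657_ag.NondegeneratePolynomials

open MvPolynomial Pool.Agent.Helper8_CR Pool.Agent.Helper91_NDR

/-- (1) Let `G` be a nondegenerate polynomial over `k` and `f` a non-constant polynomial over `k`
such that an isomorphism of polynomial rings maps `G` to `f + u_1 v_1 + ... + u_r v_r` (for instance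
`f = G`, `r = 0`). Then the conclusion of the conjecture holds for `f`: there is a finite set `S` of
pairs of integers `(a, b)` with `b > 0` and `b_f(a / b) = 0` such that `Z_f(T)` lies in the algebra
generated over `ℳ^μ_{X_s}` by `T` and the elements `1 / (1 - 𝕃^a T^b)`, `(a, b) ∈ S`.
(2) For every nonempty finite set `M` of exponent vectors there is a nonzero polynomial `H` over `ℚ`
in the coefficients such that every polynomial over a subfield of `ℂ` with support `M` and
coefficients `c_α` is nondegenerate if `H(a t^α c_α) ≠ 0` for some nonzero complex numbers `a`, `t_i`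
(for instance if `H(c) ≠ 0`). -/
theorem result :
    (∀ (k : Type) [Field k] [Algebra k ℂ] (τ : Type) [Fintype τ] (G : MvPolynomial τ k),
      Nondegenerate G →
      ∀ (σ : Type) [Finite σ] (f : MvPolynomial σ k), (∀ c : k, f ≠ C c) →
      ∀ (r : ℕ) (Φ : MvPolynomial τ k ≃ₐ[k] MvPolynomial (SV σ r) k), Φ G = stab f r → Mon f) ∧
    ∀ (τ : Type) [Fintype τ] (M : Finset (τ →₀ ℕ)), M.Nonempty →
      ∃ H : MvPolynomial M ℚ, H ≠ 0 ∧
        ∀ (k : Type) [Field k] [Algebra k ℂ] (G : MvPolynomial τ k), G.support = M →
          ∀ (a : ℂ) (t : τ → ℂ), a ≠ 0 → (∀ i, t i ≠ 0) →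
          aeval (fun α : M => a * ((α : τ →₀ ℕ).prod fun i n => t i ^ n) *
            algebraMap k ℂ (G.coeff (α : τ →₀ ℕ))) H ≠ 0 →
          Nondegenerate G :=
  Pool.Agent.GENF.H58.final Pool.Agent.NDR.H58.rootsAll

end Pool.Agent.Results.MP_b48657_ag.NondegeneratePolynomials
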